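import Pool.Agent.W560.HP.Stm

/-! Nonsingularity of the chain hypersurface. -/

set_option autoImplicit false

namespace Pool.Agent.W563.HP.Sm

open Finset
open W560.HP

/-- a derivative of a form of degree at least two vanishes where all its variables vanish -/
lemma aeval_pderiv_zero {k L : Type} [Field k] [Field L] [Algebra k L] {N d : ℕ}
    (R : MvPolynomial (Fin N) k) (hd : 2 ≤ d) (hR : R.IsHomogeneous d) (x : Fin N → L)
    (hx : ∀ i ∈ R.vars, x i = 0) (i : Fin N) :
    MvPolynomial.aeval x (MvPolynomial.pderiv i R) = 0 := by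
  classical
  have h1 : R = ∑ s ∈ R.support, MvPolynomial.monomial s (R.coeff s) := R.as_sum
  rw [h1, map_sum, map_sum]
  refine Finset.sum_eq_zero fun s hs => ?_
  rw [MvPolynomial.pderiv_monomial, MvPolynomial.aeval_monomial]
  by_cases hsi : s i = 0
  · rw [hsi]; simp
  have hdeg : ∑ j, s j = d := by
    have := hR (MvPolynomial.mem_support_iff.1 hs)
    rw [Finsupp.weight_apply, Finsupp.sum_fintype _ _ (by intro j; simp)] at this
    simpa using this
  have : ∃ j, (s - Finsupp.single i 1 : Fin N →₀ ℕ) j ≠ 0 := by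
    by_contra hcon
    push Not at hcon
    have h2 : ∀ j, s j ≤ (Finsupp.single i 1 : Fin N →₀ ℕ) j := by
      intro j
      have := hcon j
      rw [Finsupp.tsub_apply] at this
      omega
    have h3 : ∑ j, s j ≤ ∑ j, (Finsupp.single i 1 : Fin N →₀ ℕ) j :=
      Finset.sum_le_sum fun j _ => h2 j
    have h4 : ∑ j, (Finsupp.single i 1 : Fin N →₀ ℕ) j = 1 := by
      simp [Finsupp.single_apply]
    omega
  obtain ⟨j, hj⟩ := this
  have hj2 : s j ≠ 0 := by
    rw [Finsupp.tsub_apply] at hj
    omega
  have hjv : j ∈ R.vars := by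
    rw [MvPolynomial.mem_vars]
    exact ⟨s, hs, Finsupp.mem_support_iff.2 hj2⟩
  have : ((s - Finsupp.single i 1 : Fin N →₀ ℕ).prod fun i k => x i ^ k) = 0 := by
    rw [Finsupp.prod]
    exact Finset.prod_eq_zero (Finsupp.mem_support_iff.2 hj) (by rw [hx j hjv, zero_pow hj])
  rw [this, mul_zero]

lemma ofNat_eq {n : ℕ} (i : ℕ) (h : i ≤ n) : ((Fin.ofNat (n + 1) i : Fin (n + 1)) : ℕ) = i := by
  simp [Fin.ofNat, Nat.mod_eq_of_lt (Nat.lt_succ_of_le h)]

theorem main : S_SM := by
  classical
  intro k L _ _ _ _ d n R hd hn hR hv H1 H2 x hx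
  haveI : CharZero L := charZero_of_injective_algebraMap (algebraMap k L).injective
  set y : ℕ → L := fun i => x (Fin.ofNat (n + 1) i) with hy
  -- derivative of the chain
  have hder : ∀ j : Fin (n + 1), MvPolynomial.aeval x (MvPolynomial.pderiv j (chain k d n R))
      = ∑ i ∈ range (d + 1), ((d - 1 : ℕ) * y i ^ (d - 2) * (if i = (j : ℕ) then 1 else 0)
          * y (i + 1) + y i ^ (d - 1) * (if i + 1 = (j : ℕ) then 1 else 0))
        + MvPolynomial.aeval x (MvPolynomial.pderiv j R) := by
    intro j
    unfold chain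
    rw [map_add, map_add, map_sum, map_sum]
    congr 1
    refine Finset.sum_congr rfl fun i hi => ?_
    have hi' : i < d + 1 := Finset.mem_range.1 hi
    rw [MvPolynomial.pderiv_mul, MvPolynomial.pderiv_pow]
    have e1 : (Fin.ofNat (n + 1) i = j) ↔ i = (j : ℕ) := by
      rw [Fin.ext_iff, ofNat_eq i (by omega)]
    have e2 : (Fin.ofNat (n + 1) (i + 1) = j) ↔ i + 1 = (j : ℕ) := by
      rw [Fin.ext_iff, ofNat_eq (i + 1) (by omega)]
    have p1 : MvPolynomial.aeval x (MvPolynomial.pderiv j
        (MvPolynomial.X (Fin.ofNat (n + 1) i) : MvPolynomial (Fin (n + 1)) k))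
        = if i = (j : ℕ) then (1 : L) else 0 := by
      rw [MvPolynomial.pderiv_X, Pi.single_apply]
      by_cases c : i = (j : ℕ)
      · rw [if_pos (e1.2 c), if_pos c, map_one]
      · rw [if_neg (fun h => c (e1.1 h)), if_neg c, map_zero]
    have p2 : MvPolynomial.aeval x (MvPolynomial.pderiv j
        (MvPolynomial.X (Fin.ofNat (n + 1) (i + 1)) : MvPolynomial (Fin (n + 1)) k))
        = if i + 1 = (j : ℕ) then (1 : L) else 0 := by
      rw [MvPolynomial.pderiv_X, Pi.single_apply]
      by_cases c : i + 1 = (j : ℕ)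
      · rw [if_pos (e2.2 c), if_pos c, map_one]
      · rw [if_neg (fun h => c (e2.1 h)), if_neg c, map_zero]
    rw [map_add, map_mul, map_mul, map_mul, map_mul, p1, p2, map_natCast, map_pow, map_pow,
      MvPolynomial.aeval_X, MvPolynomial.aeval_X]
    rfl
  have hR0 : ∀ j : Fin (n + 1), (j : ℕ) ≤ d →
      MvPolynomial.aeval x (MvPolynomial.pderiv j R) = 0 := by
    intro j hj
    rw [MvPolynomial.pderiv_eq_zero_of_notMem_vars (fun h => by have := hv j h; omega), map_zero]
  -- the equations
  have hd1 : ((d - 1 : ℕ) : L) ≠ 0 := Nat.cast_ne_zero.2 (by omega)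
  have E0 : y 0 ^ (d - 2) * y 1 = 0 := by
    have h := hder (Fin.ofNat (n + 1) 0)
    rw [hx, ofNat_eq 0 (by omega), hR0 _ (by rw [ofNat_eq 0 (by omega)]; omega), add_zero] at h
    rw [Finset.sum_eq_single 0] at h
    · simp only [if_true, mul_one, Nat.succ_ne_zero, if_false, mul_zero, add_zero, zero_add] at h
      rw [eq_comm, mul_assoc, mul_eq_zero] at h
      exact h.resolve_left hd1
    · intro b _ hb
      simp [hb]
    · intro h0
      exact absurd (Finset.mem_range.2 (by omega)) h0
  have E1 : ∀ i, i + 1 ≤ d → y i ^ (d - 1) + (d - 1 : ℕ) * (y (i + 1) ^ (d - 2) * y (i + 2)) = 0 := by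
    intro i hi
    have h := hder (Fin.ofNat (n + 1) (i + 1))
    rw [hx, ofNat_eq (i + 1) (by omega), hR0 _ (by rw [ofNat_eq (i + 1) (by omega)]; omega),
      add_zero, Finset.sum_add_distrib] at h
    rw [Finset.sum_eq_single (i + 1), Finset.sum_eq_single i] at h
    · simp only [if_true, mul_one] at h
      rw [← mul_assoc, add_comm]
      exact h.symm
    · intro b _ hb
      rw [if_neg (fun h => hb (by omega)), mul_zero]
    · intro h0
      exact absurd (Finset.mem_range.2 (by omega)) h0
    · intro b _ hb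
      rw [if_neg hb, mul_zero, zero_mul]
    · intro h0
      exact absurd (Finset.mem_range.2 (by omega)) h0
  have E2 : y d ^ (d - 1) + MvPolynomial.aeval x
      (MvPolynomial.pderiv (Fin.ofNat (n + 1) (d + 1)) R) = 0 := by
    have h := hder (Fin.ofNat (n + 1) (d + 1))
    rw [hx, ofNat_eq (d + 1) (by omega), Finset.sum_add_distrib] at h
    rw [Finset.sum_eq_zero, Finset.sum_eq_single d] at h
    · simp only [if_true, mul_one, zero_add] at h
      exact h.symm
    · intro b _ hb
      rw [if_neg (fun h => hb (by omega)), mul_zero]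
    · intro h0
      exact absurd (Finset.mem_range.2 (by omega)) h0
    · intro b hb
      rw [if_neg (by have := Finset.mem_range.1 hb; omega), mul_zero, zero_mul]
  have E3 : ∀ j : Fin (n + 1), d + 2 ≤ (j : ℕ) →
      MvPolynomial.aeval x (MvPolynomial.pderiv j R) = 0 := by
    intro j hj
    have h := hder j
    rw [hx, Finset.sum_eq_zero, zero_add] at h
    · exact h.symm
    · intro b hb
      have := Finset.mem_range.1 hb
      rw [if_neg (by omega), if_neg (by omega)]
      ring
  -- the first `d` coordinates vanish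
  have A : ∀ i, i < d → y i = 0 := by
    intro i
    induction i using Nat.strong_induction_on with
    | _ i ih =>
      intro hi
      by_contra hne
      have h1 : y i ^ (d - 2) * y (i + 1) = 0 := by
        rcases Nat.eq_zero_or_pos i with h0 | h0
        · subst h0; exact E0
        · obtain ⟨i', rfl⟩ : ∃ i', i = i' + 1 := ⟨i - 1, by omega⟩
          have h2 := E1 i' (by omega)
          rw [ih i' (by omega) (by omega), zero_pow (by omega), zero_add] at h2
          exact (mul_eq_zero.1 h2).resolve_left hd1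
      have h2 : y (i + 1) = 0 := (mul_eq_zero.1 h1).resolve_left (pow_ne_zero _ hne)
      have h3 := E1 i (by omega)
      rw [h2, zero_pow (by omega), zero_mul, mul_zero, add_zero] at h3
      exact hne (pow_eq_zero_iff (by omega) |>.1 h3)
  have hxy : ∀ j : Fin (n + 1), x j = y j := by
    intro j
    show x j = x (Fin.ofNat (n + 1) j)
    congr 1
    apply Fin.ext
    rw [ofNat_eq _ (by have := j.2; omega)]
  -- the coordinate `d` vanishes
  have B : y d = 0 := by
    by_contra hne
    have h2 := E1 (d - 1) (by omega)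
    have e1 : d - 1 + 1 = d := by omega
    have e2 : d - 1 + 2 = d + 1 := by omega
    rw [e1, e2, A (d - 1) (by omega), zero_pow (by omega), zero_add] at h2
    have h3 : y (d + 1) = 0 := (mul_eq_zero.1 ((mul_eq_zero.1 h2).resolve_left hd1)).resolve_left
      (pow_ne_zero _ hne)
    have h4 := H2 x h3 E3
    have h5 := aeval_pderiv_zero R (by omega) hR x (by
      intro i hi
      have := hv i hi
      rcases Nat.lt_or_ge (i : ℕ) (d + 2) with c | c
      · rw [hxy i]
        have : (i : ℕ) = d + 1 := by omega
        rw [this]; exact h3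
      · exact h4 i c) (Fin.ofNat (n + 1) (d + 1))
    rw [h5, add_zero] at E2
    exact hne (pow_eq_zero_iff (by omega) |>.1 E2)
  rw [B, zero_pow (by omega), zero_add] at E2
  have C := H1 x (by
    intro i hi
    rcases Nat.lt_or_ge (i : ℕ) (d + 2) with c | c
    · have : i = Fin.ofNat (n + 1) (d + 1) := by
        apply Fin.ext
        rw [ofNat_eq _ (by omega)]
        omega
      rw [this]; exact E2
    · exact E3 i c)
  funext i
  rcases Nat.lt_trichotomy (i : ℕ) d with c | c | c
  · rw [hxy i]; exact A i c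
  · rw [hxy i, c]; exact B
  · exact C i c

end Pool.Agent.W563.HP.Sm
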