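import Pool.Agent.W743.HP.Stm

/-!
# The change of variables from the disc to the half plane
-/

set_option autoImplicit false

open Set Filter Topology MeasureTheory

namespace Pool.Agent.W563.HP.Cv

open Pool.Agent.W743.HP

/-- the map to the half plane -/
noncomputable def ta (f : ℂ → ℂ) (z : ℂ) : ℂ := Complex.I * (1 + f z) / (1 - f z)

lemma one_sub_ne {w : ℂ} (hw : ‖w‖ < 1) : 1 - w ≠ 0 := by
  intro h
  rw [← sub_eq_zero.1 h, norm_one] at hw
  exact lt_irrefl _ hw

lemma im_ta (f : ℂ → ℂ) (z : ℂ) (hz : ‖f z‖ < 1) :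
    (ta f z).im = (1 - ‖f z‖ ^ 2) / ‖1 - f z‖ ^ 2 := by
  have h1 := one_sub_ne hz
  have h2 : Complex.normSq (1 - f z) ≠ 0 := by simpa using h1
  rw [ta, Complex.div_im, ← Complex.normSq_eq_norm_sq, ← Complex.normSq_eq_norm_sq]
  simp only [Complex.mul_im, Complex.mul_re, Complex.I_re, Complex.I_im, Complex.add_re,
    Complex.add_im, Complex.one_re, Complex.one_im, Complex.sub_re, Complex.sub_im]
  rw [← sub_div]
  congr 1
  rw [Complex.normSq_apply]
  ring

lemma im_ta_pos (f : ℂ → ℂ) (z : ℂ) (hz : ‖f z‖ < 1) : 0 < (ta f z).im := by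
  rw [im_ta f z hz]
  have h1 := one_sub_ne hz
  have h2 : 0 < ‖1 - f z‖ := norm_pos_iff.2 h1
  have h3 : ‖f z‖ ^ 2 < 1 := by
    have := norm_nonneg (f z)
    nlinarith
  have : 0 < 1 - ‖f z‖ ^ 2 := by linarith
  positivity

lemma coe_cay (f : ℂ → ℂ) (z : ℂ) (hz : ‖f z‖ < 1) :
    ((cay (f z) : UpperHalfPlane) : ℂ) = ta f z := by
  have h := im_ta_pos f z hz
  rw [ta] at h
  rw [cay, UpperHalfPlane.ofComplex_apply_of_im_pos h]
  rfl

lemma det_smul_one (d : ℂ) : ((d • (1 : ℂ →L[ℝ] ℂ)) : ℂ →L[ℝ] ℂ).det = ‖d‖ ^ 2 := by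
  have h1 : ((d • (1 : ℂ →L[ℝ] ℂ) : ℂ →L[ℝ] ℂ) : ℂ →ₗ[ℝ] ℂ) = Algebra.lmul ℝ ℂ d := by
    ext
    all_goals simp
  rw [ContinuousLinearMap.det, h1, ← Complex.normSq_eq_norm_sq, ← Algebra.norm_complex_apply]
  rfl

lemma hasDerivAt_ta {f : ℂ → ℂ} (hf : DifferentiableOn ℂ f (Metric.ball 0 1))
    (hf1 : ∀ z ∈ Metric.ball (0 : ℂ) 1, ‖f z‖ < 1) {z : ℂ} (hz : z ∈ Metric.ball (0 : ℂ) 1) :
    HasDerivAt (ta f) (2 * Complex.I * deriv f z / (1 - f z) ^ 2) z := by
  have h1 : HasDerivAt f (deriv f z) z :=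
    (hf.differentiableAt (Metric.isOpen_ball.mem_nhds hz)).hasDerivAt
  have h2 := one_sub_ne (hf1 z hz)
  have h3 := ((h1.const_add 1).const_mul Complex.I).div (h1.const_sub 1) h2
  refine h3.congr_deriv ?_
  congr 1
  ring

/-- HP-CV -/
theorem cv : S_CV := by
  intro f hf hinj hf1 ψ hψ
  have hcd : cd ⊆ Metric.ball (0 : ℂ) 1 := by
    intro z hz
    have hz' : ‖z‖ ^ 2 ≤ 1 / 2 := hz
    rw [mem_ball_zero_iff]
    have := norm_nonneg z
    nlinarith
  have hcdc : IsCompact cd := by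
    have h1 : cd = Metric.closedBall (0 : ℂ) (Real.sqrt (1 / 2)) := by
      ext z
      rw [mem_closedBall_zero_iff, Real.le_sqrt (norm_nonneg z) (by norm_num)]
      rfl
    rw [h1]
    exact isCompact_closedBall _ _
  set S : Set UpperHalfPlane := (fun z => cay (f z)) '' cd with hS
  have hcoe : UpperHalfPlane.coe '' S = ta f '' cd := by
    rw [hS, Set.image_image]
    exact Set.image_congr fun z hz => coe_cay f z (hf1 z (hcd hz))
  have htc : ContinuousOn (ta f) cd := fun z hz =>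
    (hasDerivAt_ta hf hf1 (hcd hz)).continuousAt.continuousWithinAt
  have hSm : MeasurableSet S := by
    have h1 : MeasurableSet (UpperHalfPlane.coe '' S) := by
      rw [hcoe]
      exact (hcdc.image_of_continuousOn htc).measurableSet
    exact UpperHalfPlane.measurableEmbedding_coe.measurableSet_image.1 h1
  have hcdm : MeasurableSet cd := hcdc.measurableSet
  have hden : Measurable fun z : UpperHalfPlane => ((1 / NNReal.mk z.im z.im_pos.le : NNReal) ^ 2) := by
    refine Continuous.measurable ?_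
    refine .pow (.div₀ continuous_const ?_ ?_) _
    · exact UpperHalfPlane.continuous_im.subtype_mk _
    · exact fun x ↦ NNReal.ne_iff.mp x.im_ne_zero
  have hmp : MeasurePreserving UpperHalfPlane.coe (volume.comap UpperHalfPlane.coe)
      (volume.restrict (.range UpperHalfPlane.coe)) :=
    ⟨UpperHalfPlane.measurable_coe, by rw [UpperHalfPlane.measurableEmbedding_coe.map_comap]⟩
  have e1 : ∫ τ in S, ψ τ = ∫ τ in S, ((1 / NNReal.mk τ.im τ.im_pos.le : NNReal) ^ 2) • ψ τ
      ∂(volume.comap UpperHalfPlane.coe) := by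
    rw [UpperHalfPlane.volume_def]
    exact setIntegral_withDensity_eq_setIntegral_smul hden ψ hSm
  have e2 : ∫ τ in S, ((1 / NNReal.mk τ.im τ.im_pos.le : NNReal) ^ 2) • ψ τ
      ∂(volume.comap UpperHalfPlane.coe) =
      ∫ w in UpperHalfPlane.coe '' S, ((1 / w.im) ^ 2 : ℝ) • ψ (UpperHalfPlane.ofComplex w)
        ∂(volume.restrict (.range UpperHalfPlane.coe)) := by
    rw [hmp.setIntegral_image_emb UpperHalfPlane.measurableEmbedding_coe]
    refine setIntegral_congr_fun hSm fun τ _ => ?_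
    simp only [UpperHalfPlane.ofComplex_apply, NNReal.smul_def]
    rfl
  rw [e1, e2, Measure.restrict_restrict' UpperHalfPlane.measurableEmbedding_coe.measurableSet_range,
    Set.inter_eq_self_of_subset_left (Set.image_subset_range _ _), hcoe]
  have hinj' : InjOn (ta f) cd := by
    intro z hz w hw h
    have h1 := one_sub_ne (hf1 z (hcd hz))
    have h2 := one_sub_ne (hf1 w (hcd hw))
    rw [ta, ta, div_eq_div_iff h1 h2] at h
    have h3 : Complex.I * (2 * (f z - f w)) = 0 := by linear_combination h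
    have h4 : f z = f w := by
      have := (mul_eq_zero.1 h3).resolve_left Complex.I_ne_zero
      have := (mul_eq_zero.1 this).resolve_left two_ne_zero
      exact sub_eq_zero.1 this
    exact hinj (hcd hz) (hcd hw) h4
  rw [integral_image_eq_integral_abs_det_fderiv_smul volume hcdm
    (f' := fun z => (2 * Complex.I * deriv f z / (1 - f z) ^ 2) • (1 : ℂ →L[ℝ] ℂ))
    (fun z hz => (hasDerivAt_ta hf hf1 (hcd hz)).complexToReal_fderiv.hasFDerivWithinAt) hinj']
  refine setIntegral_congr_fun hcdm fun z hz => ?_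
  have hz1 := hf1 z (hcd hz)
  have h1 := one_sub_ne hz1
  have h2 : ‖1 - f z‖ ≠ 0 := norm_ne_zero_iff.2 h1
  have h3 : 1 - ‖f z‖ ^ 2 ≠ 0 := by
    have := norm_nonneg (f z)
    nlinarith
  have h4 : UpperHalfPlane.ofComplex (ta f z) = cay (f z) := rfl
  simp only [h4, smul_smul]
  congr 1
  rw [det_smul_one, im_ta f z hz1, KK, abs_of_nonneg (by positivity)]
  simp only [norm_div, norm_mul, norm_pow, Complex.norm_I, Complex.norm_ofNat]
  field_simp
  ring

end Pool.Agent.W563.HP.Cv
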